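import Mathlib

set_option autoImplicit false
open MvPolynomial
open scoped Pointwise

namespace Pool.Agent.Results.MP_d06a13_ag.Counter

/-- A proper ideal generated by squarefree monomials. -/
def IsSqfreeMonomial {K : Type*} [Field K] {n : ℕ} (I : Ideal (MvPolynomial (Fin n) K)) : Prop :=
  I ≠ ⊤ ∧ ∃ S : Set (Finset (Fin n)), I = Ideal.span ((fun A => ∏ i ∈ A, X i) '' S)

/-- The v-number: least degree `d` of a form `f` with `(I : f)` an associated prime of `I`. -/
noncomputable def vNumber {K : Type*} [Field K] {n : ℕ} (I : Ideal (MvPolynomial (Fin n) K)) : ℕ∞ :=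
  sInf {e : ℕ∞ | ∃ d : ℕ, e = d ∧ ∃ f : MvPolynomial (Fin n) K, f.IsHomogeneous d ∧
    ∃ p ∈ associatedPrimes (MvPolynomial (Fin n) K) (MvPolynomial (Fin n) K ⧸ I),
      Submodule.colon I {f} = p}

/-- Depth of `R/I`: the supremum of lengths of `R/I`-regular sequences in `(x_1, …, x_n)`. -/
noncomputable def depth {K : Type*} [Field K] {n : ℕ} (I : Ideal (MvPolynomial (Fin n) K)) : ℕ∞ :=
  sSup {e : ℕ∞ | ∃ rs : List (MvPolynomial (Fin n) K), e = rs.length ∧
    (∀ r ∈ rs, r ∈ Ideal.span (Set.range (X : Fin n → MvPolynomial (Fin n) K))) ∧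
    RingTheory.Sequence.IsRegular (MvPolynomial (Fin n) K ⧸ I) rs}

variable {K : Type*} [Field K]

def S : Set (Finset (Fin 6)) :=
  {A | A = {0, 1, 2} ∨ A = {3, 4, 5} ∨ ∃ i j : Fin 6, i.val < 3 ∧ 3 ≤ j.val ∧ A = {i, j}}

variable (K) in
noncomputable def J : Ideal (MvPolynomial (Fin 6) K) := Ideal.span ((fun A => ∏ i ∈ A, X i) '' S)

lemma J_eq : J K = Ideal.span ((fun s => monomial s (1 : K)) ''
    ((fun A : Finset (Fin 6) => ∑ i ∈ A, Finsupp.single i 1) '' S)) := by
  rw [J, Set.image_image]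
  congr 2
  ext1 A
  rw [monomial_sum_one]
  rfl

lemma coeff_zero {h : MvPolynomial (Fin 6) K} (hh : h ∈ J K) (m : Fin 6 →₀ ℕ)
    (hm : ∀ A ∈ S, ∃ i ∈ A, m i = 0) : coeff m h = 0 := by
  by_contra hc
  rw [J_eq, mem_ideal_span_monomial_image] at hh
  obtain ⟨_, ⟨A, hA, rfl⟩, hle⟩ := hh m (mem_support_iff.2 hc)
  obtain ⟨i, hi, h0⟩ := hm A hA
  have := hle i
  simp only [Finsupp.finset_sum_apply, Finsupp.single_apply, Finset.sum_ite_eq', hi, if_true] at this
  omega

lemma mix (i j : Fin 6) (hi : i.val < 3) (hj : 3 ≤ j.val) : (X i * X j : MvPolynomial (Fin 6) K) ∈ J K := by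
  refine Ideal.subset_span ⟨{i, j}, Or.inr (Or.inr ⟨i, j, hi, hj, rfl⟩), ?_⟩
  have : i ≠ j := by rintro rfl; omega
  simp [Finset.prod_pair this]

lemma t1 : (X 0 * X 1 * X 2 : MvPolynomial (Fin 6) K) ∈ J K := by
  refine Ideal.subset_span ⟨{0, 1, 2}, Or.inl rfl, ?_⟩
  simp [Finset.prod_insert, mul_assoc]

lemma t2 : (X 3 * X 4 * X 5 : MvPolynomial (Fin 6) K) ∈ J K := by
  refine Ideal.subset_span ⟨{3, 4, 5}, Or.inr (Or.inl rfl), ?_⟩
  simp [Finset.prod_insert, mul_assoc]

lemma face (i j : Fin 6) (hij : i.val < 3 ↔ j.val < 3) (m : Fin 6 →₀ ℕ)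
    (hm : ∀ k, k ≠ i → k ≠ j → m k = 0) : ∀ A ∈ S, ∃ k ∈ A, m k = 0 := by
  have key : ∀ i j : Fin 6, ((∃ k ∈ ({0, 1, 2} : Finset (Fin 6)), k ≠ i ∧ k ≠ j) ∧
      ∃ k ∈ ({3, 4, 5} : Finset (Fin 6)), k ≠ i ∧ k ≠ j) := by decide
  rintro A (rfl | rfl | ⟨a, b, ha, hb, rfl⟩)
  · obtain ⟨k, hk, h1, h2⟩ := (key i j).1
    exact ⟨k, hk, hm k h1 h2⟩
  · obtain ⟨k, hk, h1, h2⟩ := (key i j).2
    exact ⟨k, hk, hm k h1 h2⟩
  · by_cases h : i.val < 3
    · have h' := hij.1 h
      exact ⟨b, by simp, hm b (by rintro rfl; omega) (by rintro rfl; omega)⟩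
    · have h' := mt hij.2 h
      exact ⟨a, by simp, hm a (by rintro rfl; omega) (by rintro rfl; omega)⟩

noncomputable def cut (c : ℕ) : MvPolynomial (Fin 6) K →ₐ[K] MvPolynomial (Fin 6) K :=
  aeval fun i => if i.val < c then X i else 0

lemma cut_mem (c : ℕ) (u : MvPolynomial (Fin 6) K) (hu : ∀ i : Fin 6, c ≤ i.val → u * X i ∈ J K)
    (g : MvPolynomial (Fin 6) K) : u * (g - cut c g) ∈ J K := by
  induction g using MvPolynomial.induction_on with
  | C a => simp [cut]
  | add p q hp hq =>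
    have := (J K).add_mem hp hq
    rw [map_add]
    rwa [show u * (p + q - (cut c p + cut c q)) = u * (p - cut c p) + u * (q - cut c q) by ring]
  | mul_X p i hp =>
    rw [map_mul]
    by_cases h : i.val < c
    · have : cut c (X i : MvPolynomial (Fin 6) K) = X i := by simp [cut, h]
      rw [this, show u * (p * X i - cut c p * X i) = X i * (u * (p - cut c p)) by ring]
      exact (J K).mul_mem_left _ hp
    · have : cut c (X i : MvPolynomial (Fin 6) K) = 0 := by simp [cut, h]
      rw [this, show u * (p * X i - cut c p * 0) = p * (u * X i) by ring]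
      exact (J K).mul_mem_left _ (hu i (by omega))

lemma colon_eq : Submodule.colon (J K) {X 0 * X 1} = RingHom.ker (cut (K := K) 2) := by
  ext g
  rw [Submodule.mem_colon_singleton, smul_eq_mul, RingHom.mem_ker]
  constructor
  · intro h
    have hk : J K ≤ RingHom.ker (cut (K := K) 2) := by
      refine Ideal.span_le.2 ?_
      rintro _ ⟨A, hA, rfl⟩
      have : ∃ k ∈ A, 2 ≤ k.val := by
        rcases hA with rfl | rfl | ⟨a, b, ha, hb, rfl⟩
        · exact ⟨2, by simp, by simp⟩
        · exact ⟨3, by simp, by simp⟩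
        · exact ⟨b, by simp, by omega⟩
      obtain ⟨k, hk, h2⟩ := this
      simp only [SetLike.mem_coe, RingHom.mem_ker, map_prod]
      refine Finset.prod_eq_zero hk ?_
      have : ¬ k.val < 2 := by omega
      simp only [cut, aeval_X, this, if_false]
    have := hk h
    rw [RingHom.mem_ker, map_mul, map_mul] at this
    have h0 : cut 2 (X 0 : MvPolynomial (Fin 6) K) = X 0 := by simp [cut]
    have h1 : cut 2 (X 1 : MvPolynomial (Fin 6) K) = X 1 := by simp [cut]
    rw [h0, h1] at this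
    simpa [X_ne_zero] using this
  · intro h
    have := cut_mem 2 (X 0 * X 1 : MvPolynomial (Fin 6) K) (fun i hi => by
      by_cases h3 : 3 ≤ i.val
      · rw [show (X 0 * X 1 * X i : MvPolynomial (Fin 6) K) = X 1 * (X 0 * X i) by ring]
        exact (J K).mul_mem_left _ (mix 0 i (by simp) h3)
      · have : i = 2 := Fin.ext (by simp; omega)
        subst this
        exact t1) g
    rwa [h, sub_zero, mul_comm] at this

lemma v_eq : vNumber (J K) = 2 := by
  refine le_antisymm (sInf_le ⟨2, rfl, X 0 * X 1, (isHomogeneous_X K 0).mul (isHomogeneous_X K 1),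
    _, ?_, rfl⟩) (le_sInf ?_)
  · have hp : (Submodule.colon (J K) {X 0 * X 1}).IsPrime := by
      rw [colon_eq]; exact RingHom.ker_isPrime _
    refine ⟨hp, Ideal.Quotient.mk (J K) (X 0 * X 1), ?_⟩
    rw [← hp.radical]
    congr 1
    ext g
    rw [Submodule.mem_colon_singleton, Submodule.mem_colon_singleton, Submodule.mem_bot,
      ← Ideal.Quotient.eq_zero_iff_mem]
    rfl
  · rintro _ ⟨d, rfl, f, hf, p, hp, hc⟩
    by_contra hd
    have hd' : d ≤ 1 := by
      have : d < 2 := by exact_mod_cast not_le.1 hd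
      omega
    have hpr : p.IsPrime := hp.1
    have hf0 : f ≠ 0 := by
      rintro rfl
      apply hpr.ne_top
      rw [← hc, eq_top_iff]
      intro g _
      simp [Submodule.mem_colon_singleton]
    obtain ⟨m, hm⟩ := ne_zero_iff.1 hf0
    have hdeg : m.degree = d := by
      have := hf hm
      rwa [Finsupp.degree_eq_weight_one]
    obtain ⟨i, hi⟩ : ∃ i : Fin 6, ∀ k, k ≠ i → m k = 0 := by
      by_cases h0 : m = 0
      · exact ⟨0, fun k _ => by simp [h0]⟩
      · obtain ⟨i, hi⟩ := Finsupp.ne_iff.1 h0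
        refine ⟨i, fun k hk => ?_⟩
        have h1 : ∑ x ∈ ({i, k} : Finset (Fin 6)), m x ≤ ∑ x, m x :=
          Finset.sum_le_sum_of_subset (Finset.subset_univ _)
        rw [Finset.sum_pair hk.symm, ← Finsupp.degree_eq_sum, hdeg] at h1
        simp only [Finsupp.coe_zero, Pi.zero_apply] at hi
        omega
    have hn : ∀ j : Fin 6, (i.val < 3 ↔ j.val < 3) → X j ∉ p := by
      intro j hij hj
      rw [← hc, Submodule.mem_colon_singleton, smul_eq_mul] at hj
      have := coeff_zero hj (Finsupp.single j 1 + m) (face i j hij _ fun k h1 h2 => by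
        simp [hi k h1, Finsupp.single_apply, h2.symm])
      rw [coeff_X_mul] at this
      exact hm this
    have hle : J K ≤ p := by
      intro g hg
      rw [← hc, Submodule.mem_colon_singleton, smul_eq_mul]
      exact (J K).mul_mem_right _ hg
    by_cases h : i.val < 3
    · rcases hpr.mem_or_mem (hle t1) with h' | h'
      · rcases hpr.mem_or_mem h' with h' | h'
        · exact hn 0 (by simp [h]) h'
        · exact hn 1 (by simp [h]) h'
      · exact hn 2 (by simp [h]) h'
    · rcases hpr.mem_or_mem (hle t2) with h' | h'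
      · rcases hpr.mem_or_mem h' with h' | h'
        · exact hn 3 (by simp [h]) h'
        · exact hn 4 (by simp [h]) h'
      · exact hn 5 (by simp [h]) h'

lemma cross {f : MvPolynomial (Fin 6) K} (hf : f ∈ Ideal.span (Set.range (X : Fin 6 → _)))
    (g : MvPolynomial (Fin 6) K) : cut 3 f * (g - cut 3 g) ∈ J K := by
  induction hf using Submodule.span_induction with
  | mem x hx =>
    obtain ⟨i, rfl⟩ := hx
    by_cases h : i.val < 3
    · have : cut 3 (X i : MvPolynomial (Fin 6) K) = X i := by simp [cut, h]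
      rw [this]
      exact cut_mem 3 _ (fun j hj => mix i j h hj) g
    · have : cut 3 (X i : MvPolynomial (Fin 6) K) = 0 := by simp [cut, h]
      simp [this]
  | zero => simp
  | add x y _ _ hx hy => rw [map_add, add_mul]; exact (J K).add_mem hx hy
  | smul a x _ hx => rw [smul_eq_mul, map_mul, mul_assoc]; exact (J K).mul_mem_left _ hx

lemma const {j : Fin 6} {h : MvPolynomial (Fin 6) K} (hh : X j * h ∈ J K) : coeff 0 h = 0 := by
  have := coeff_zero hh (Finsupp.single j 1 + 0) (face j j Iff.rfl _ fun k h1 _ => by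
    simp [Finsupp.single_apply, h1.symm])
  rwa [coeff_X_mul] at this

lemma depth_le : depth (J K) ≤ 1 := by
  refine sSup_le ?_
  rintro _ ⟨rs, rfl, hm, hr⟩
  match rs, hm, hr with
  | [], _, _ => simp
  | [_], _, _ => simp
  | f :: g :: rs, hm, hr =>
    exfalso
    rw [RingTheory.Sequence.isRegular_cons_iff, RingTheory.Sequence.isRegular_cons_iff] at hr
    obtain ⟨hf, hg, -⟩ := hr
    have hfm := hm f (by simp)
    have hgm := hm g (by simp)
    have hreg : ∀ u, f * u ∈ J K → u ∈ J K := by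
      intro u hu
      rw [← Ideal.Quotient.eq_zero_iff_mem] at hu ⊢
      apply hf
      simp only [smul_zero]
      exact hu
    have h1 : g * cut 3 f - f * cut 3 g ∈ J K := by
      rw [show g * cut 3 f - f * cut 3 g = cut 3 f * (g - cut 3 g) - cut 3 g * (f - cut 3 f) by ring]
      exact (J K).sub_mem (cross hfm g) (cross hgm f)
    have h2 : (Submodule.Quotient.mk (Ideal.Quotient.mk (J K) (cut 3 f)) :
        QuotSMulTop f (MvPolynomial (Fin 6) K ⧸ J K)) = 0 := by
      apply hg
      simp only [smul_zero]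
      rw [← Submodule.Quotient.mk_smul, Submodule.Quotient.mk_eq_zero]
      have : g • Ideal.Quotient.mk (J K) (cut 3 f) = f • Ideal.Quotient.mk (J K) (cut 3 g) :=
        Ideal.Quotient.eq.2 h1
      rw [this]
      exact Submodule.smul_mem_pointwise_smul _ _ _ trivial
    rw [Submodule.Quotient.mk_eq_zero, Submodule.mem_smul_pointwise_iff_exists] at h2
    obtain ⟨y, -, hy⟩ := h2
    obtain ⟨h, rfl⟩ := Ideal.Quotient.mk_surjective y
    have h3 : f * h - cut 3 f ∈ J K := Ideal.Quotient.eq.1 hy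
    have h4 : X 0 * (f - cut 3 f) ∈ J K := cut_mem 3 _ (fun j hj => mix 0 j (by simp) hj) f
    have h5 := cross hfm (X 3)
    have h6 : cut 3 (X 3 : MvPolynomial (Fin 6) K) = 0 := by simp [cut]
    rw [h6, sub_zero] at h5
    have a1 : X 0 * (1 - h) ∈ J K := hreg _ (by
      rw [show f * (X 0 * (1 - h)) = X 0 * (f - cut 3 f) - X 0 * (f * h - cut 3 f) by ring]
      exact (J K).sub_mem h4 ((J K).mul_mem_left _ h3))
    have a2 : X 3 * h ∈ J K := hreg _ (by
      rw [show f * (X 3 * h) = cut 3 f * X 3 + X 3 * (f * h - cut 3 f) by ring]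
      exact (J K).add_mem h5 ((J K).mul_mem_left _ h3))
    have b1 := const a1
    have b2 := const a2
    rw [coeff_sub, b2] at b1
    simp at b1

theorem result (K : Type*) [Field K] : ∃ I : Ideal (MvPolynomial (Fin 6) K),
    IsSqfreeMonomial I ∧ vNumber I = 2 ∧ depth I ≤ 1 := by
  refine ⟨J K, ⟨fun h => ?_, S, rfl⟩, v_eq, depth_le⟩
  have : (X 0 * 1 : MvPolynomial (Fin 6) K) ∈ J K := by rw [h]; trivial
  simpa using const this

end Pool.Agent.Results.MP_d06a13_ag.Counter
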